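import Pool.Agent.U331.FS.H
import Pool.Agent.Results.MP_9227d9_nt.ZeroGaps

/-!
# The gcd recursion for prime pairs with gap `2m`: no zeros at ALL integral combinations of an infinite sequence in every dense set

Let `a` be the recursion of the problem for some `m ≥ 1`. We show that EVERY set `B` of natural numbers with at least `c N` elements
up to `N` for all large `N` contains the terms of an infinite sequence `x_n ≤ M(n)`, where the function `M` does not depend on `B`, with
the following property. For ALL nonzero integral vectors `u` with finite support and entries of absolute value at most `H`, with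
largest index `n`, and for `v = |∑ uᵢ xᵢ|`, NO integer `k ≥ 1` with `|k - v| ≤ n` is a zero of `a`. There is no exception among the
infinitely many combinations.

Proof: a greedy choice. At the step `n` there are at most `(2 H + 1) ^ (n + 1)` conditions for the new term, each of them excludes at
most twice as many integers as there are integers near the zeros, and these have density zero by the starting result
`ZeroGaps` (`Pool.Agent.U331.FS`).
-/

set_option autoImplicit false

namespace Pool.Agent.Results.MP_9227d9_nt.AllCombinations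

open Pool.Agent.U331.FS (AllSumsDens all_sums_windows)

/-- the limit of the bounds of the starting result -/
lemma small (C : ℝ) (ε : ℝ) (hε : 0 < ε) : ∃ X₀ : ℕ, ∀ X : ℕ, X₀ ≤ X → C * ((X : ℝ) / (Real.log X) ^ 2) ≤ ε * X := by
  have h1 : Filter.Tendsto (fun X : ℕ => Real.log X ^ 2) Filter.atTop Filter.atTop :=
    (Filter.tendsto_pow_atTop (by norm_num)).comp (Real.tendsto_log_atTop.comp tendsto_natCast_atTop_atTop)
  obtain ⟨X₀, hX₀⟩ := Filter.eventually_atTop.mp (h1.eventually_ge_atTop (max (|C| / ε) 1))
  refine ⟨X₀, fun X hX => ?_⟩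
  have h2 := hX₀ X hX
  have h3 : 0 < Real.log (X : ℝ) ^ 2 := lt_of_lt_of_le one_pos ((le_max_right _ _).trans h2)
  have h4 : |C| ≤ ε * Real.log X ^ 2 := by
    have h5 := (le_max_left (|C| / ε) 1).trans h2
    rw [div_le_iff₀ hε] at h5
    linarith
  have hX0 : (0 : ℝ) ≤ X := Nat.cast_nonneg _
  rw [← mul_div_assoc, div_le_iff₀ h3]
  calc C * X ≤ |C| * X := mul_le_mul_of_nonneg_right (le_abs_self C) hX0
    _ ≤ (ε * Real.log X ^ 2) * X := mul_le_mul_of_nonneg_right h4 hX0
    _ = _ := by ring

/-- **Theorem.** For all `m ≥ 1` and the recursion `a` of the problem: in every set of positive lower density there is an infinite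
sequence such that no zero of `a` is at a distance of at most `n` from a combination with bounded coefficients and largest
index `n` (`AllSumsDens`). -/
theorem result (m : ℕ) (hm : 1 ≤ m) (a : ℕ → ℤ) (ha : a 1 = 4 * (m : ℤ) ^ 2)
    (hrec : ∀ n : ℕ, 2 ≤ n →
      a n = |a (n - 1) - ((Int.gcd (a (n - 1)) ((n : ℤ) * ((n : ℤ) + 2 * (m : ℤ)))) : ℤ)|) :
    AllSumsDens (fun n _ v => ∀ k : ℕ, 1 ≤ k → |(k : ℤ) - v| ≤ n → a k ≠ 0) := by
  obtain ⟨c, C, -, h⟩ := ZeroGaps.result
  have h1 := (h m hm a ha hrec).2
  refine all_sums_windows (Good := fun k => a k ≠ 0) (fun ε hε => ?_)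
  obtain ⟨X₀, hX₀⟩ := small C ε hε
  refine ⟨max X₀ 2, fun X hX => ?_⟩
  simp only [ne_eq, not_not]
  exact (h1 X ((le_max_right _ _).trans hX)).trans (hX₀ X ((le_max_left _ _).trans hX))

end Pool.Agent.Results.MP_9227d9_nt.AllCombinations
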