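import Pool.Agent.U901.GL.Inc

/-!
# The gcd recursion with `n (n + 2m)`: many very large gcds between two consecutive zeros

Let `n < n'` be consecutive zeros of the recursion. The gcds which are subtracted at the steps
between them divide `k (k + 2m)` and add up to the value `V = (n+1)(n+2m+1)` at the step `n + 1`. By
the starting result ZeroGaps there are at least `c (log n)²` steps. Here: if there are few steps,
less than `n ^ δ / 24`, then at least `c δ² (log n)²` of the gcds are very large, at least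
`V / n ^ (2δ)`.

The sequence of the large gcds alone satisfies the hypotheses of the main inequality of project ZG
(starting files N60.ZG).
-/

set_option autoImplicit false

namespace Pool.Agent.Results.MP_9227d9_nt.ManyLargeGcds

open Pool.Agent.U901.GL

/-- `a` is the recursion of the problem. -/
def IsRec (m : ℕ) (a : ℕ → ℤ) : Prop :=
  a 1 = 4 * (m : ℤ) ^ 2 ∧ ∀ n : ℕ, 2 ≤ n →
    a n = |a (n - 1) - ((Int.gcd (a (n - 1)) ((n : ℤ) * ((n : ℤ) + 2 * (m : ℤ)))) : ℤ)|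

/-- `n < n'` are consecutive zeros of `a`. -/
def ConsecutiveZeros (a : ℕ → ℤ) (n n' : ℕ) : Prop :=
  1 ≤ n ∧ n < n' ∧ a n = 0 ∧ a n' = 0 ∧ ∀ k, n < k → k < n' → a k ≠ 0

/-- The number of the steps `k` with `n + 2 ≤ k ≤ n'` at which the gcd of `a (k - 1)` and
`k (k + 2m)` is at least `B`. -/
noncomputable def numLarge (m : ℕ) (a : ℕ → ℤ) (n n' : ℕ) (B : ℝ) : ℕ :=
  {k : ℕ | n + 2 ≤ k ∧ k ≤ n' ∧
    B ≤ (Int.gcd (a (k - 1)) ((k : ℤ) * ((k : ℤ) + 2 * (m : ℤ))) : ℝ)}.ncard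

/-- There is an absolute constant `c > 0` such that for all `m ≥ 1`, the recursion `a` of the
problem, all consecutive zeros `n < n'` and all `0 < δ ≤ 1/2`: either `24 (n' - n) ≥ n ^ δ`, or at
least `c δ² (log n)²` of the gcds subtracted between the two zeros are at least
`(n + 1)(n + 2m + 1) / n ^ (2δ)`. -/
theorem result : ∃ c : ℝ, 0 < c ∧ ∀ m : ℕ, 1 ≤ m → ∀ a : ℕ → ℤ, IsRec m a →
    ∀ n n' : ℕ, ConsecutiveZeros a n n' → ∀ δ : ℝ, 0 < δ → δ ≤ 1 / 2 →
      (n : ℝ) ^ δ ≤ 24 * ((n' : ℝ) - n) ∨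
      c * δ ^ 2 * (Real.log n) ^ 2 ≤
        numLarge m a n n' (((n : ℝ) + 1) * (n + 2 * m + 1) / (n : ℝ) ^ (2 * δ)) := by
  refine ⟨1 / 10 ^ 6, by positivity, ?_⟩
  rintro m hm a ⟨h1, hrec⟩ n f ⟨hn, hf1, hz, hf2, hfmin⟩ δ hδ hδ2
  have hnn : ∀ k, 1 ≤ k → 0 ≤ a k := by
    intro k hk
    rcases Nat.eq_or_lt_of_le hk with h | h
    · rw [← h, h1]
      positivity
    · rw [hrec k h]
      exact abs_nonneg _
  obtain ⟨V, hV⟩ : ∃ V : ℕ → ℕ, ∀ k, V k = k * (k + 2 * m) := ⟨_, fun _ => rfl⟩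
  have hV' : ∀ k : ℕ, (k : ℤ) * ((k : ℤ) + 2 * (m : ℤ)) = (V k : ℤ) := by
    intro k
    rw [hV]
    push_cast
    ring
  have hgcd : ∀ (x : ℤ) (k : ℕ), Int.gcd x ((k : ℤ) * ((k : ℤ) + 2 * (m : ℤ))) =
      Nat.gcd x.natAbs (V k) := by
    intro x k
    rw [hV']
    rfl
  have ha1 : a (n + 1) = (V (n + 1) : ℤ) := by
    rw [hrec (n + 1) (by omega), Nat.add_sub_cancel, hz, hgcd]
    simp
  have hV1 : 0 < V (n + 1) := by
    rw [hV]
    positivity
  have hf3 : n + 1 < f := by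
    rcases Nat.lt_or_ge (n + 1) f with h | h
    · exact h
    · exfalso
      have : f = n + 1 := by omega
      rw [this, ha1] at hf2
      have : V (n + 1) = 0 := by exact_mod_cast hf2
      omega
  have hstep : ∀ k, n + 1 < k → k ≤ f →
      0 < (a (k - 1)).natAbs ∧ (a k).natAbs + Nat.gcd (a (k - 1)).natAbs (V k) =
        (a (k - 1)).natAbs := by
    intro k hk1 hk2
    have hne := hfmin (k - 1) (by omega) (by omega)
    have h0 : 0 < (a (k - 1)).natAbs := Int.natAbs_pos.2 hne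
    refine ⟨h0, ?_⟩
    have hle : Nat.gcd (a (k - 1)).natAbs (V k) ≤ (a (k - 1)).natAbs :=
      Nat.le_of_dvd h0 (Nat.gcd_dvd_left _ _)
    have hab : ((a (k - 1)).natAbs : ℤ) = a (k - 1) :=
      Int.natAbs_of_nonneg (hnn _ (by omega))
    have hk : a k = ((a (k - 1)).natAbs : ℤ) - (Nat.gcd (a (k - 1)).natAbs (V k) : ℕ) := by
      rw [hrec k (by omega), hgcd, hab]
      apply abs_of_nonneg
      have : ((Nat.gcd (a (k - 1)).natAbs (V k) : ℕ) : ℤ) ≤ ((a (k - 1)).natAbs : ℤ) := by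
        exact_mod_cast hle
      omega
    have hak : ((a k).natAbs : ℤ) = a k := Int.natAbs_of_nonneg (hnn _ (by omega))
    omega
  have hD : IncDes (n + 1) f (fun k => (a k).natAbs) V :=
    { lt := hf3
      start := by simp [ha1]
      zero := by simp [hf2]
      pos := hV1
      step := hstep
      inc := by
        intro k _ _
        rw [hV, hV]
        nlinarith }
  rcases le_or_gt ((n : ℝ) ^ δ) (24 * ((f : ℝ) - n)) with h | hcon
  · exact Or.inl h
  right
  have hn1 : (1 : ℝ) ≤ n := by exact_mod_cast hn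
  have hn0 : (0 : ℝ) < n := by linarith
  obtain ⟨H, hH⟩ : ∃ H : ℝ, H = (f : ℝ) - ((n + 1 : ℕ) : ℝ) := ⟨_, rfl⟩
  have hfr : ((n : ℝ) + 1) < f := by exact_mod_cast hf3
  have hH0 : 0 < H := by
    rw [hH]
    push_cast
    linarith
  obtain ⟨x, hx⟩ : ∃ x : ℝ, x = (n : ℝ) ^ δ := ⟨_, rfl⟩
  rw [← hx] at hcon
  have hx1 : 1 ≤ x := by
    rw [hx]
    exact Real.one_le_rpow hn1 hδ.le
  have hHx : 24 * H ≤ x := by
    rw [hH]
    push_cast
    linarith
  have hx2 : (n : ℝ) ^ (2 * δ) = x ^ 2 := by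
    rw [hx, ← Real.rpow_natCast, ← Real.rpow_mul hn0.le]
    congr 1
    push_cast
    ring
  have hxn : x ^ 2 ≤ n := by
    rw [← hx2]
    calc (n : ℝ) ^ (2 * δ) ≤ (n : ℝ) ^ (1 : ℝ) :=
          Real.rpow_le_rpow_of_exponent_le hn1 (by linarith)
      _ = n := Real.rpow_one _
  have hm0 : (0 : ℝ) ≤ m := Nat.cast_nonneg _
  obtain ⟨W, hW⟩ : ∃ W : ℝ, W = ((n : ℝ) + 1) * (n + 2 * m + 1) := ⟨_, rfl⟩
  have hWV : (V (n + 1) : ℝ) = W := by
    rw [hV, hW]
    push_cast
    ring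
  have hW0 : 0 < W := by
    rw [hW]
    positivity
  rw [← hW, hx2]
  have hmain := hD.many (B := W / x ^ 2) (Z := x) (by positivity) hx1 (by
    have e1 : (V f : ℝ) - V (n + 1) = H * (2 * (n + 1) + H + 2 * m) := by
      rw [hV, hV, hH]
      push_cast
      ring
    rw [e1, hWV, hW]
    have hxx : x ≤ x ^ 2 := by nlinarith
    have e2 : 2 * ((n : ℝ) + 1) + H + 2 * m ≤ 3 * (n + 2 * m + 1) := by linarith
    have e3 : 4 * x * (H * (2 * ((n : ℝ) + 1) + H + 2 * m)) ≤
        4 * x * (H * (3 * (n + 2 * m + 1))) :=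
      mul_le_mul_of_nonneg_left (mul_le_mul_of_nonneg_left e2 hH0.le) (by linarith)
    refine e3.trans ?_
    have e4 : 4 * x * (H * (3 * ((n : ℝ) + 2 * m + 1))) = (12 * (x * H)) * (n + 2 * m + 1) := by
      ring
    rw [e4]
    apply mul_le_mul_of_nonneg_right _ (by positivity)
    have e5 : x * (24 * H) ≤ x * x := mul_le_mul_of_nonneg_left hHx (by linarith)
    nlinarith) (by
    rw [← hH, hWV]
    have e1 : 8 * x * (H * (W / x ^ 2)) = 8 * H * (W / x) := by
      field_simp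
    rw [e1]
    have e2 : W / x * x = W := by field_simp
    have e3 : 0 < W / x := by positivity
    nlinarith)
  have hlog : Real.log x = δ * Real.log n := by
    rw [hx, Real.log_rpow hn0]
  rw [hlog] at hmain
  have hcard : (bigI (n + 1) f (fun k => (a k).natAbs) V (W / x ^ 2)).card =
      numLarge m a n f (W / x ^ 2) := by
    rw [numLarge, ← Set.ncard_coe_finset]
    congr 1
    ext k
    simp only [Finset.mem_coe, mem_bigI, Set.mem_ofPred_eq, gc, hgcd]
    constructor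
    · rintro ⟨⟨h1, h2⟩, h3⟩
      exact ⟨by omega, h2, h3⟩
    · rintro ⟨h1, h2, h3⟩
      exact ⟨⟨by omega, h2⟩, h3⟩
  rw [hcard] at hmain
  have e : (δ * Real.log n) ^ 2 = δ ^ 2 * (Real.log n) ^ 2 := by ring
  rw [e] at hmain
  linarith

end Pool.Agent.Results.MP_9227d9_nt.ManyLargeGcds
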