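import Pool.Agent.U449.BV.O
import Pool.Agent.Results.MP_9227d9_nt.ZeroGaps

/-!
# The gcd recursion with `n (n + 2m)`: no zeros near the values of polynomials on arbitrary dense sets

Let `p` be a prime and `f(x, y)` ANY polynomial modulo `p` of degree at most `d` with a monomial which contains both variables (for
example `f = x y`), let `A`, `B` be ARBITRARY sets of residues modulo `p`, `g`, `h` ARBITRARY functions, and `1 ≤ W ≤ p`.
For all but `Θ |A| |B|` of the pairs `(a, b)` in `A × B`, where `Θ ^ 2 = C d e(p) (p / |A| + W p / |B|)`, `e(X) = 1 / (1 + log X) ^ 2`, `C` absolute, for the sequence of the problem for any `m`,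
there is no zero of the sequence at a distance of at most `W` from the least residue of `f(a, b) + g(a) + h(b)`.
So this holds for almost all pairs if `A`, `B` are dense and `W` is small in the same sense as the set of the exceptions is sparse.
More generally, this holds for all functions `F(a, b)` with few coincidences (`Rare`).

Since the sets and the functions `g` and `h` are arbitrary, the values have no arithmetic structure, and a value may be
taken by very many pairs. So the number of the exceptions (starting library) does not give the result directly. Proof: the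
inequality of Cauchy and Schwarz; for most pairs `a, a'` the difference `F(a, b) - F(a', b)` is small for few `b`
(`Pool.Agent.U449.BV`).
-/

set_option autoImplicit false

namespace Pool.Agent.Results.MP_9227d9_nt.MixedOnDenseSets

open Pool.Agent.U449.BV (Rare OnDenseU on_dense_nat_u residues)

/-- The sequence `a` of the problem, for some `m ≥ 1`. -/
def IsSequence (a : ℕ → ℤ) : Prop :=
  ∃ m : ℕ, 1 ≤ m ∧ a 1 = 4 * (m : ℤ) ^ 2 ∧ ∀ n : ℕ, 2 ≤ n →
    a n = |a (n - 1) - ((Int.gcd (a (n - 1)) ((n : ℤ) * ((n : ℤ) + 2 * (m : ℤ)))) : ℤ)|

/-- No zero `n ≥ 1` of the sequence satisfies `|n - x| ≤ W`. -/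
def NoZeroNear (a : {a : ℕ → ℤ // IsSequence a}) (W x : ℝ) : Prop :=
  ∀ n : ℕ, 1 ≤ n → |(n : ℝ) - x| ≤ W → a.1 n ≠ 0

/-- **Theorem.** Uniformly in `m ≥ 1` the property that no zero of the sequence of the problem is near holds for almost all
values of functions of two variables with few coincidences on arbitrary dense sets, with the density `1 / (1 + log X) ^ 2` of
exceptions (`OnDenseU`: with one absolute constant for all `m`).
The least residues modulo `p` of `f(a, b) + g(a) + h(b)` are such a function, bounded by `X = p`, for all primes `p`, all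
polynomials `f` modulo `p` with a monomial which contains both variables, arbitrary functions `g` and `h`, and arbitrary sets of
residues. -/
theorem result :
    OnDenseU (fun X => 1 / (1 + Real.log X) ^ (2 : ℝ)) NoZeroNear ∧
    ∀ (p : ℕ) [Fact p.Prime] (d : ℕ) (f : MvPolynomial (Fin 2) (ZMod p)), f.totalDegree ≤ d →
      (∃ m ∈ f.support, m 0 ≠ 0 ∧ m 1 ≠ 0) → ∀ (g h : ZMod p → ZMod p) (A B : Finset (ZMod p)),
        Rare d A B (fun a b => (((MvPolynomial.eval ![a, b] f + g a + h b).val : ℕ) : ℝ)) := by
  refine ⟨?_, residues⟩
  obtain ⟨c, C, -, h⟩ := ZeroGaps.result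
  refine on_dense_nat_u (Good := fun (a : {a : ℕ → ℤ // IsSequence a}) n => a.1 n ≠ 0) (K := C) (by norm_num) 2 fun a x hx => ?_
  obtain ⟨m, hm, h1, h2⟩ := a.2
  have h3 := (h m hm a.1 h1 h2).2 x hx
  rw [← Real.rpow_natCast (Real.log (x : ℝ)) 2] at h3
  push_cast at h3
  simp only [ne_eq, not_not]
  exact h3

end Pool.Agent.Results.MP_9227d9_nt.MixedOnDenseSets
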