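import Mathlib
import Pool.Agent.U462.Sh.ZAdm

set_option autoImplicit false

/-!
# A gcd recursion and pairs with difference `2 m` at its zeros
-/

namespace Pool.Agent.Results.MP_9227d9_nt.ZerosIndependent

open Finset Filter
open scoped Topology
open Pool.Agent.U462.Sh.Law

/-- `a m i` is `a(i + 1)`: `a(1) = 4 m²`, `a(n) = |a(n - 1) - gcd (a(n - 1), n (n + 2 m))|` -/
def a (m : ℕ) : ℕ → ℤ
  | 0 => 4 * (m : ℤ) ^ 2
  | i + 1 => |a m i - (Int.gcd (a m i) (((i : ℤ) + 2) * ((i : ℤ) + 2 + 2 * m)) : ℤ)|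

/-- **The zeros carry no information on the pairs.** For every `m ≥ 1` and every set `Z` of zeros of the
recursion there is a set `S` of rough numbers `≥ 2` such that for no `n` in `Z` both `n + 1` and
`n + 2 m + 1` belong to `S` (so that for `Z` the set of all zeros (i) fails for `S` or (ii) fails, and (iii)
fails for `S`), for which the uniform Hardy–Littlewood law holds for all systems of linear forms and all
intervals, except for those systems with two forms `l, l + 2 m` for which `l` has in the interval a value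
`n + 1` with `n` in `Z`. -/
theorem result : ∀ m : ℕ, 1 ≤ m → ∀ Z : Set ℕ, (∀ n ∈ Z, 1 ≤ n ∧ a m (n - 1) = 0) →
    ∃ S : Set ℕ, (∀ s ∈ S, 2 ≤ s ∧ Rough s) ∧ (∀ n ∈ Z, ¬ (n + 1 ∈ S ∧ n + 2 * m + 1 ∈ S)) ∧
    LawOn S (fun L u v => ∀ α β : ℤ, (α, β) ∈ L → (α, β + 2 * m) ∈ L →
      ∀ x : ℕ, u ≤ x → x < v → ∀ n ∈ Z, value (α, β) x ≠ n + 1) := by
  classical
  intro m _ Z _
  obtain ⟨S, h1, h2, h3⟩ := Pool.Agent.U462.Sh.shiftOn {0, 2 * m} (by simp) {t | ∃ n ∈ Z, t = n + 1}
  refine ⟨S, h1, ?_, Pool.Agent.U462.Sh.on_mono ?_ h3⟩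
  · rintro n hn ⟨h5, h6⟩
    apply h2 (n + 1) ⟨n, hn, rfl⟩
    intro d hd
    simp only [mem_insert, mem_singleton] at hd
    rcases hd with rfl | rfl
    · exact h5
    · have e : n + 1 + 2 * m = n + 2 * m + 1 := by ring
      rw [e]
      exact h6
  · rintro L u v hL α β hab x hx1 hx2 ⟨n, hn, h5⟩
    exact hL α β (by simpa using hab 0 (by simp)) (by simpa using hab (2 * m) (by simp)) x hx1 hx2 n hn h5

end Pool.Agent.Results.MP_9227d9_nt.ZerosIndependent
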